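import Mathlib
import Pool.Agent.Helper28.HN.Defs

/-!
# Descent of a polynomial relation to the small field, and the affine part of a form
-/

set_option autoImplicit false

namespace Pool.Agent.Helper50.XA

open MvPolynomial Pool.Agent.Helper28.HN

/-- A relation with coefficients in a bigger field which holds at points of the small field gives
one with coefficients in the small field, with the same monomials. -/
theorem desc {K k : Type*} [Field K] [Field k] [Algebra K k] {s : Type*} (D : MvPolynomial s k)
    (h : D ≠ 0) : ∃ D' : MvPolynomial s K, D' ≠ 0 ∧ D'.support ⊆ D.support ∧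
      ∀ x : s → K, aeval (fun i => algebraMap K k (x i)) D = 0 → eval x D' = 0 := by
  classical
  obtain ⟨d0, hd0⟩ := MvPolynomial.ne_zero_iff.mp h
  have hφ : ∃ φ : Module.Dual K k, φ (coeff d0 D) ≠ 0 := by
    by_contra hne
    push Not at hne
    exact hd0 ((Module.forall_dual_apply_eq_zero_iff K _).mp hne)
  obtain ⟨φ, hφ⟩ := hφ
  set D' : MvPolynomial s K := ∑ d ∈ D.support, monomial d (φ (coeff d D)) with hD'
  have hc : ∀ d, coeff d D' = φ (coeff d D) := by
    intro d
    rw [hD', coeff_sum]
    simp only [coeff_monomial]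
    rw [Finset.sum_ite_eq' D.support d (fun x => φ (coeff x D))]
    by_cases hd : d ∈ D.support
    · simp [hd]
    · have : coeff d D = 0 := by simpa using hd
      simp [hd, this]
  refine ⟨D', ?_, ?_, ?_⟩
  · intro h0
    apply hφ
    rw [← hc d0, h0, coeff_zero]
  · intro d hd
    rw [mem_support_iff] at hd ⊢
    intro h0
    apply hd
    rw [hc, h0, map_zero]
  · intro x hx
    have h1 : eval x D' = φ (aeval (fun i => algebraMap K k (x i)) D) := by
      have h2 : aeval (fun i => algebraMap K k (x i)) D =
          ∑ d ∈ D.support, (∏ i ∈ d.support, x i ^ d i) • coeff d D := by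
        rw [aeval_def, eval₂_eq]
        refine Finset.sum_congr rfl fun d _ => ?_
        rw [Algebra.smul_def, map_prod, mul_comm]
        simp
      rw [h2, hD', map_sum, map_sum]
      refine Finset.sum_congr rfl fun d _ => ?_
      rw [eval_monomial, map_smul, smul_eq_mul, mul_comm]
      rfl
    rw [h1, hx, map_zero]

theorem vars_le {K k : Type*} [CommSemiring K] [CommSemiring k] {s : Type*} {D : MvPolynomial s k}
    {D' : MvPolynomial s K} (h : D'.support ⊆ D.support) : D'.vars ⊆ D.vars := by
  intro i hi
  rw [mem_vars_iff_mem_support] at hi ⊢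
  obtain ⟨d, hd, h1⟩ := hi
  exact ⟨d, h hd, h1⟩

theorem hom_le {K k : Type*} [CommSemiring K] [CommSemiring k] {s : Type*} {D : MvPolynomial s k}
    {D' : MvPolynomial s K} (h : D'.support ⊆ D.support) {e : ℕ} (he : D.IsHomogeneous e) :
    D'.IsHomogeneous e := by
  intro d hd
  exact he (mem_support_iff.mp (h (mem_support_iff.mpr hd)))

/-- `desc` with all conclusions. -/
theorem desc' {K k : Type*} [Field K] [Field k] [Algebra K k] {s : Type*} (D : MvPolynomial s k)
    (h : D ≠ 0) : ∃ D' : MvPolynomial s K, D' ≠ 0 ∧ D'.vars ⊆ D.vars ∧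
      (∀ e, D.IsHomogeneous e → D'.IsHomogeneous e) ∧
      ∀ x : s → K, aeval (fun i => algebraMap K k (x i)) D = 0 → eval x D' = 0 := by
  obtain ⟨D', h1, h2, h3⟩ := desc (K := K) D h
  exact ⟨D', h1, vars_le h2, fun e he => hom_le h2 he, h3⟩

/-- A form of degree `e` at a multiple of an affine point, in any algebra. -/
theorem aeval_aff {K : Type*} [CommRing K] {m : ℕ} {F : Type*} [CommRing F] [Algebra K F]
    (D : MvPolynomial (I m) K) (e : ℕ) (hD : D.IsHomogeneous e) (x : Fin (m + 1) → F) (t : F) :
    aeval (fun a => t * aff x a) D =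
      t ^ e * aeval x (aeval (aff X : I m → MvPolynomial (Fin (m + 1)) K) D) := by
  have h1 : aeval x (aeval (aff X : I m → MvPolynomial (Fin (m + 1)) K) D) = aeval (aff x) D := by
    have h2 : (aeval x).comp (aeval (aff X : I m → MvPolynomial (Fin (m + 1)) K)) =
        (aeval (aff x) : MvPolynomial (I m) K →ₐ[K] F) := by
      apply MvPolynomial.algHom_ext
      intro a
      refine Fin.cases ?_ (fun j => ?_) a
      · simp [aff]
      · simp [aff]
    exact DFunLike.congr_fun h2 D
  rw [h1, aeval_def, aeval_def, eval₂_eq, eval₂_eq, Finset.mul_sum]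
  refine Finset.sum_congr rfl fun d hd => ?_
  have h3 : ∑ i ∈ d.support, d i = e := by
    have := hD (mem_support_iff.mp hd)
    rw [Finsupp.weight_apply] at this
    simpa [Finsupp.sum] using this
  have h4 : ∏ i ∈ d.support, (t * aff x i) ^ d i = t ^ e * ∏ i ∈ d.support, aff x i ^ d i := by
    rw [← h3, ← Finset.prod_pow_eq_pow_sum, ← Finset.prod_mul_distrib]
    exact Finset.prod_congr rfl fun i _ => mul_pow _ _ _
  rw [h4]
  ring

/-- The affine part of a form is not zero. -/
theorem dehom {k : Type*} [Field k] {m : ℕ} (D : MvPolynomial (I m) k) (e : ℕ) (h0 : D ≠ 0)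
    (h : D.IsHomogeneous e) : aeval (aff X : I m → MvPolynomial (Fin (m + 1)) k) D ≠ 0 := by
  intro hz
  apply h0
  let F := FractionRing (MvPolynomial (I m) k)
  have hX : algebraMap (MvPolynomial (I m) k) F (X 0) ≠ 0 := by
    rw [Ne, IsFractionRing.to_map_eq_zero_iff]
    exact MvPolynomial.X_ne_zero 0
  have h1 := aeval_aff D e h (fun i : Fin (m + 1) => algebraMap (MvPolynomial (I m) k) F (X i.succ) /
    algebraMap (MvPolynomial (I m) k) F (X 0)) (algebraMap (MvPolynomial (I m) k) F (X 0))
  rw [hz, map_zero, mul_zero] at h1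
  have h2 : (fun a => algebraMap (MvPolynomial (I m) k) F (X 0) *
      aff (fun i : Fin (m + 1) => algebraMap (MvPolynomial (I m) k) F (X i.succ) /
        algebraMap (MvPolynomial (I m) k) F (X 0)) a) =
      fun a => algebraMap (MvPolynomial (I m) k) F (X a) := by
    funext a
    refine Fin.cases ?_ (fun j => ?_) a
    · simp [aff]
    · simp only [aff, Fin.cons_succ]
      rw [← mul_div_assoc]
      exact mul_div_cancel_left₀ _ hX
  rw [h2] at h1
  have h3 : aeval (fun a => algebraMap (MvPolynomial (I m) k) F (X a)) D =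
      algebraMap (MvPolynomial (I m) k) F D := by
    have h4 : (aeval (fun a => algebraMap (MvPolynomial (I m) k) F (X a)) :
        MvPolynomial (I m) k →ₐ[k] F) = IsScalarTower.toAlgHom k (MvPolynomial (I m) k) F := by
      apply MvPolynomial.algHom_ext
      intro a
      simp
    rw [h4]
    rfl
  rw [h3] at h1
  exact (IsFractionRing.to_map_eq_zero_iff (K := F)).mp h1

/-- The affine part of a form which is free of one variable. -/
theorem aff_part {K : Type*} [Field K] {m : ℕ} (D : MvPolynomial (I m) K) (e : ℕ) (h0 : D ≠ 0)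
    (hD : D.IsHomogeneous e) (i : Fin (m + 1)) (hi : i.succ ∉ D.vars) :
    ∃ D' : MvPolynomial (Fin (m + 1)) K, D' ≠ 0 ∧ i ∉ D'.vars ∧
      ∀ (x : Fin (m + 1) → K) (t : K), eval (fun a => t * aff x a) D = t ^ e * eval x D' := by
  classical
  refine ⟨aeval (aff X : I m → MvPolynomial (Fin (m + 1)) K) D, dehom D e h0 hD, ?_, ?_⟩
  · intro hv
    have h1 := MvPolynomial.vars_bind₁ (aff X : I m → MvPolynomial (Fin (m + 1)) K) D
    have h2 : i ∈ D.vars.biUnion fun a => (aff X a : MvPolynomial (Fin (m + 1)) K).vars := h1 hv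
    rw [Finset.mem_biUnion] at h2
    obtain ⟨a, ha, h3⟩ := h2
    revert ha h3
    refine Fin.cases ?_ (fun j => ?_) a
    · intro _ h3
      simp [aff] at h3
    · intro ha h3
      simp only [aff, Fin.cons_succ, vars_X, Finset.mem_singleton] at h3
      exact hi (h3 ▸ ha)
  · intro x t
    have := aeval_aff D e hD x t
    simpa [aeval_eq_eval] using this

end Pool.Agent.Helper50.XA
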